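import Pool.Agent.Run7.h735.NF.Main

/-!
# The Tate conjecture over number fields for surfaces with an iterated Kummer reduction at one place

Let `K` be a number field, and let `S` be a smooth projective surface over `K`, a model of the affine surface

  `w ^ (p ^ s) = F(x, y)`,  `F(x, y) = (…((y ^ p - a₁(x)) ^ p - a₂(x)) ^ p - …) ^ p - a_r(x)`

with polynomials `a_j` with integral coefficients (or any surface which has such a reduction).  Let `v` be a place of
good reduction (with the resolution) whose residue field `κ` has `q ≡ 1` modulo `p ^ s` elements.  The *branch
polynomials* are the polynomials `G_j(x) = (…((- a_j) ^ p - a_(j+1)) ^ p - …) ^ p - a_r` in one variable over `κ`, `j = 1, …, r`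
(`branch`), so `G_r = - a_r` and `G_(r-1) = (- a_(r-1)) ^ p - a_r`.  Suppose that modulo `v` every `G_j` is a constant times a
power of an irreducible polynomial of degree `D_j` prime to `p` (`HasDegrees`).  Let `P` be the part of `H^2(S)` for the
nontrivial characters of the covering group; its orthogonal complement is spanned by curves.

**Theorem.**
1. Let `K'` be a finite extension of `K` with a place of residue degree `m` above `v`.  The space of the Tate classes of
   `P` over `K'` has at most the dimension `(p ^ s - 1) (p - 1) ∑ p ^ (j - 1) (gcd(m, D_j) - 1)`.  If this number is zero
   (`m` is prime to all `D_j`), or if it is attained by divisors over `K'`, then the Tate conjecture holds for `S` over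
   `K'`.  In particular it always holds over `K` itself (`m = 1`).
2. If all `D_j` are powers of a prime number `r` then the Tate conjecture holds for `S` over all finite extensions `K'` of
   `K` of degree prime to `r`, and there are no Tate classes in `P` over `K'`: the Néron-Severi group over `K'` comes from
   the plane, the exceptional curves and the curves at infinity.
3. The same as 1 is true for the surfaces `w ^ (p ^ s) = F(x ^ N, y)`, with `D_j N` in place of `D_j`, if `N` is odd and prime
   to `p` and the numbers `(-1) ^ (D_j) π_j(0)`, `π_j` the monic irreducible factor of `G_j`, are not `ℓ`-th powers in `κ` for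
   the primes `ℓ` dividing `N`.

The Tate conjecture here is: for all `ℓ` (any Weil cohomology) the classes in `H^(2 j)` on which the Galois group of `K'`
acts through the cyclotomic character are the combinations of classes of cycles over `K'`; for `j = 1` this is the
surjectivity of `C^1`, which is the content of the problem.  Nothing has to be known about numbers of points of `S` or of
curves: one only has to factor `r` polynomials in one variable over one finite field.

The hypotheses on the cohomology hold for example if `d = deg a_r` is prime to `p`, `p ^ (r - j) deg a_j < d` for `j < r`,
the place `v` does not divide `p` and the leading coefficient of `a_r`, and all `G_j` (of degree `d`) are irreducible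
modulo `v`.  The geometric genus of these surfaces is not bounded.  For example (the irreducibility was checked outside
of Lean) let `f` be a monic polynomial of degree `4` with integral coefficients, `f ≡ x ^ 4 + x + 2` modulo `7`.  Then
`f` and `f - x ^ 3` are irreducible modulo `7`, and so for the surface `w ^ 3 = (y ^ 3 - x) ^ 3 + f(x)` over `ℚ`, with
`dim P = 48`, the Tate conjecture holds over `ℚ` and over all number fields of odd degree, for all `ℓ`.

Proof.  The zeta function of the branch curve `F = 0` over `κ` is known modulo `p` (`Run7/h735/IK`): it is `1 / (1 - T)` times
`H = ∏ (1 + T + … + T ^ (D_j - 1)) ^ ((p - 1) p ^ (j - 1))`, and the characteristic polynomials of Frobenius on the parts of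
`P` are congruent to `H` modulo a prime above `p`.  So the multiplicity of `q ^ m` as an eigenvalue of the `m`-th power of
the Frobenius element `φ` on `P` is at most the number in 1.  A Tate class over `K'` is the sum of a class in the span of
classes of cycles and of a class in `P`; both spaces are stable under `φ`, so the component in `P` is an eigenvector of
`φ ^ m`.  If all these are combinations of divisors then the Tate class is a combination of classes of cycles, and by
averaging of classes of cycles over `K'`.  For 2, the Frobenius element permutes the embeddings of `K'`, whose number is
prime to `r`; so some power of it with exponent `m` prime to `r` fixes an embedding, and a conjugate of `φ ^ m` is in the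
Galois group of `K'`.
-/

set_option autoImplicit false

universe u

namespace Pool.Agent.Results.MP_97f789_ag.IteratedKummerPlaces

open Polynomial Pool.Agent.H914 Pool.Agent.TH125.Gal Pool.Agent.Y130 Pool.Agent.Y134.TF
  Pool.Agent.Run7.h735.TP Pool.Agent.Run7.h735.IK Pool.Agent.Run7.h735.NF

/-- **The Tate conjecture over number fields for surfaces with an iterated Kummer reduction at one place.**  Let `l` be a
list of polynomials in one variable over the residue field `κ` of a place, of cardinality `q ≡ 1` modulo `p ^ s`, and
suppose that at this place `S` is the cyclic covering `w ^ (p ^ s) = F_l(x, y)`, `S.P` being the part of `H^2` for the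
nontrivial characters, and that the branch polynomials are constants times powers of irreducible polynomials of degrees
`D_j` prime to `p` (the list `t`).
(1) Over every extension with a place of degree `m` over the given one the space of Tate classes in `S.P` has at most the
dimension `(p ^ s - 1) (p - 1) ∑ p ^ (j - 1) (gcd(m, D_j) - 1)`, and the Tate conjecture holds for `S` over the extension if
this number is zero or attained by divisors.
(2) If all `D_j` are powers of the prime `r` and `S.P` is stable under the Galois group then the Tate conjecture holds for
`S` over all extensions of degree prime to `r`, over which there are no Tate classes in `S.P`.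
(3) The statement (1) for `w ^ (p ^ s) = F_l(x ^ N, y)` with the numbers `D_j N`. -/
theorem result {k : Type u} [Field k] {𝒱 : VarClass k} {ops : CycleOps 𝒱}
    (W : WeilCohomology.{u, 0} ops) [IsAlgClosed W.K] {Γ : Type} [Group Γ] (χ : Γ →* W.Kˣ)
    (S : PVar W Γ) (h : Cover χ S 1) {p s : ℕ} (hp : p.Prime) (hs : 1 ≤ s) (κ : Type) [Field κ]
    [Fintype κ] (l : List κ[X]) (t : List ℕ) (ht : ∀ D ∈ t, ¬ p ∣ D) :
    (HasDegrees p l t → BoundsForPlaces χ S p s κ (iter p l) (kummerBound p s t)) ∧
      (HasDegrees p l t → IsStable S → ∀ r : ℕ, r.Prime → (∀ D ∈ t, ∃ i, D = r ^ i) →
        NoneOverPrimeTo χ S p s κ (iter p l) r) ∧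
      (∀ N : ℕ, Odd N → ¬ p ∣ N → HasKummerDegrees N p l t →
        BoundsForPlaces χ S p s κ (iter p (compList (X ^ N) l))
          (kummerBound p s (t.map fun D => D * N))) := by
  refine ⟨fun hl => bounds_iter h hp hs hl ht, fun hl hst r hr htr v Δ hΔ hidx =>
    tate_primeTo h hp hs hl ht hst v hr htr Δ hidx, fun N hN hpN hl => ?_⟩
  refine bounds_iter h hp hs (hasDegrees_comp hN hl) fun D hD => ?_
  obtain ⟨D', hD', rfl⟩ := List.mem_map.1 hD
  intro h1
  rcases (Nat.Prime.dvd_mul hp).1 h1 with h2 | h2
  · exact ht D' hD' h2
  · exact hpN h2

end Pool.Agent.Results.MP_97f789_ag.IteratedKummerPlaces
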