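import Mathlib
import Pool.Agent.Run7.h209.PE.NFA

/-!
# The Tate conjecture in codimension one for almost all twists, over infinitely many number fields at once

Let `k₀` be a number field, `O₀` its ring of integers, and for `i` in a finite set let `g_i ≥ 1`, `N_i ≥ 1`, and let
`f_i = x ^ (2 g + 1) + f_{2 g - 1} x ^ (2 g - 1) + ... + f_0` (`g = g_i`, `N = N_i`) be a polynomial over `O₀[t]` with
`deg f_j ≤ 2 N (2 g + 1 - j)` whose discriminant is a squarefree polynomial in `t` over `k₀`, such that the polynomial
`r_i` over `O₀` formed by the coefficients of `t ^ (2 N (2 g + 1 - j))` in the `f_j` is irreducible modulo infinitely many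
primes. (For `2 g + 1` prime this means that it is irreducible over `k₀`.)

For a monic squarefree polynomial `D` over `O₀` prime to the discriminants let `X_{i, D}` be a smooth projective model of

`D(t) y ^ 2 = f_i(x, t)`.

It is geometrically simply connected, and its geometric genus is unbounded.

Theorem. For every `η > 0` there is a nonzero ideal `M` of `O₀` such that, for all large `m`, for at least the
proportion `1 - η` of the monic polynomials `E` of degree `m` over `O₀ / M`, EVERY monic `D` over `O₀` congruent to `E`
modulo `M` has the following property for EVERY number field `k ⊇ k₀` which has a prime of relative degree one over each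
prime dividing `M`, and for EVERY `i`: there is a reduction of the ring of integers of `k` modulo a prime, onto a finite
field `F` of odd characteristic, such that the reduction of `f_i` satisfies the hypotheses over `F`, the reduction of
`D` is squarefree and prime to the discriminant, and for the Jacobian `J` over `F(t)` of the reduced curve
`D y ^ 2 = f_i(x)`:

1. `J(F(t))` is uniquely divisible by two, so it is finite of odd order (it is finitely generated);
2. all classes in `H ^ 1 (F(t), J)` killed by a power of `2` which are trivial over the completions of `F(t)` at all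
  the maximal ideals of `F[t]` are zero.

The ideal `M` does not depend on `k`: there are infinitely many such fields, of every degree over `k₀`.

The property gives the Tate conjecture for the divisors on `X_{i, D}` over `k`, at all primes `ℓ`: `X_{i, D}` has good
reduction at the prime of `k`; over `F` the rank is zero and the Brauer group has trivial `2`-primary part, so by Artin, Tate
and Milne all the Tate classes of the reduction are combinations of the classes of the components of the fibres and
of a section; these are the reductions of components of the fibres of `X_{i, D}` over an algebraic closure of `k`. As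
`H ^ 1` is zero, the Tate conjecture for divisors follows for all the products of the `X_{i, D}` over `k`.

Proof. The exact law of the 2-Selmer groups over a fixed finite field (project PRL of helper286), the Chinese remainder
theorem, and a count of the classes modulo the product of the ideals that belong to the single families. The prime
that is used divides `M`, and this makes the theorem uniform in the field.
-/

set_option autoImplicit false
set_option linter.all false

namespace Pool.Agent.Results.MP_97f789_ag.ManyTwistsManyFields

open Polynomial Filter NumberField IsDedekindDomain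
open scoped Classical
open Pool.Agent.Y713.Jac (J)
open Pool.Agent.N352.Sha (UniquelyDivisible ShaTrivial)
open Run7.h209.PE (InFamily HasHeight discriminant atInfinity twist)

/-- The image of `f` under a homomorphism of the coefficients. -/
noncomputable def image {A B : Type} [CommRing A] [CommRing B] (r : A →+* B) (f : A[X][X]) :
    B[X][X] := f.map (mapRingHom r)

/-- The polynomials `D` over the field `F`, squarefree and prime to the discriminant of `f`, such that for
the Jacobian `J` of `D y ^ 2 = f(x)` over `K = F(t)` the group `J(K)` is uniquely divisible by two and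
the 2-primary part of the group of the classes in `H ^ 1 (K, J)` which are trivial over the completions
of `K` at the maximal ideals of `F[t]` is zero. -/
def GoodTwists {F : Type} [Field F] (g : ℕ) (f : F[X][X]) : Set F[X] :=
  {D | Squarefree D ∧ IsCoprime D (discriminant g f) ∧
    UniquelyDivisible 2 (J 2 (twist (RatFunc F) f D) (RatFunc F)) ∧
    ShaTrivial 2 (twist (RatFunc F) f D) F[X]}

/-- There is a reduction `r` of `B` onto a finite field `F` of odd characteristic such that the reduction
of `f` is in the family and the reduction of `D` is in `GoodTwists`. -/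
def IsGoodModuloPrime {B : Type} [CommRing B] (g N : ℕ) (f : B[X][X]) (D : B[X]) : Prop :=
  ∃ (F : Type) (_ : Field F) (_ : Finite F) (r : B →+* F), Function.Surjective r ∧ (2 : F) ≠ 0 ∧
    InFamily g N (image r f) ∧ D.map r ∈ GoodTwists g (image r f)

section

variable {k₀ : Type} [Field k₀] [NumberField k₀]

/-- The extension `k` of `k₀` has a prime of relative degree one over each prime dividing `M`: for each such prime `P` there is
a homomorphism of the ring of integers of `k` to `O₀ / P` which extends the natural one. -/
def HasDegreeOnePrimes (M : Ideal (𝓞 k₀)) (k : Type) [Field k] [NumberField k] [Algebra k₀ k] : Prop :=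
  ∀ P : HeightOneSpectrum (𝓞 k₀), M ≤ P.asIdeal → ∃ ρ : 𝓞 k →+* 𝓞 k₀ ⧸ P.asIdeal,
    ρ.comp (algebraMap (𝓞 k₀) (𝓞 k)) = Ideal.Quotient.mk P.asIdeal

/-- The monic polynomials `E` of degree `m` over `O₀ / M` such that for all monic polynomials `D` over `O₀`
congruent to `E` modulo `M`, all number fields `k ⊇ k₀` with primes of relative degree one over the primes dividing `M`,
and all members `f_i` of the family, `D` is good for `f_i` modulo a prime of `k`. -/
def goodClasses {ι : Type} (g N : ι → ℕ) (f : ι → (𝓞 k₀)[X][X]) (M : Ideal (𝓞 k₀)) (m : ℕ) : Set (𝓞 k₀ ⧸ M)[X] :=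
  {E | E.Monic ∧ E.natDegree = m ∧ ∀ D : (𝓞 k₀)[X], D.Monic → D.map (Ideal.Quotient.mk M) = E →
    ∀ (k : Type) [Field k] [NumberField k] [Algebra k₀ k], HasDegreeOnePrimes M k → ∀ i,
      IsGoodModuloPrime (g i) (N i) (image (algebraMap (𝓞 k₀) (𝓞 k)) (f i)) (D.map (algebraMap (𝓞 k₀) (𝓞 k)))}

end

theorem result {k₀ : Type} [Field k₀] [NumberField k₀] {ι : Type} [Fintype ι] [Nonempty ι]
    {g N : ι → ℕ} (hg : ∀ i, 1 ≤ g i) (hN : ∀ i, 1 ≤ N i) {f : ι → (𝓞 k₀)[X][X]} (hf : ∀ i, HasHeight (g i) (2 * N i) (f i))
    (hs : ∀ i, Squarefree ((discriminant (g i) (f i)).map (algebraMap (𝓞 k₀) k₀)))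
    (hr : ∀ i, {P : HeightOneSpectrum (𝓞 k₀) |
      Irreducible ((atInfinity (g i) (2 * N i) (f i)).map (Ideal.Quotient.mk P.asIdeal))}.Infinite) (η : ℝ) (hη : 0 < η) :
    ∃ M : Ideal (𝓞 k₀), M ≠ ⊥ ∧ ∀ᶠ m : ℕ in atTop,
      (1 - η) * (Nat.card (𝓞 k₀ ⧸ M) : ℝ) ^ m ≤ ((goodClasses g N f M m).ncard : ℝ) := by
  obtain ⟨M, hM, h⟩ := Run7.h209.PE.mainAll hg hN hf hs hr hη
  refine ⟨M, hM, ?_⟩
  filter_upwards [h, eventually_ge_atTop 1] with m hm hm1
  refine hm.trans ?_
  norm_cast
  apply Set.ncard_le_ncard
  · rintro E ⟨hE1, hE2, hE3⟩
    refine ⟨hE1, hE2, fun D hD hDE k _ _ _ hk i => ?_⟩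
    obtain ⟨P, hP, hgood⟩ := hE3 i
    exact (hgood D hD hDE).over (hk P hP)
  · haveI : Finite (𝓞 k₀ ⧸ M) := Ideal.finiteQuotientOfFreeOfNeBot _ hM
    rcases subsingleton_or_nontrivial (𝓞 k₀ ⧸ M) with hsub | hnt
    · exact Set.toFinite _
    · obtain ⟨-, hfin⟩ := Pool.Agent.Y188.NZ.card_monic (𝓞 k₀ ⧸ M) m
      have h6 : ({p : (𝓞 k₀ ⧸ M)[X] | p.Monic ∧ p.natDegree = m}).Finite := hfin
      exact h6.subset fun E hE => ⟨hE.1, hE.2.1⟩

end Pool.Agent.Results.MP_97f789_ag.ManyTwistsManyFields
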