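import Pool.Agent.N650.TH.Many
import Pool.Agent.Run7.h823.WF.D
import Pool.Agent.Run7.h823.WF.Ex

/-!
# MP_97f789_ag: the Tate conjecture at `p`, with exact rank, for sparse families of surfaces whose
# parameters are vectors of residues, for example the first `m ^ ε` terms of recurrences modulo `m`

Let `p` be a prime, `Q = p ^ (s + 1)`, `n ≥ 1`, `D ≥ 2`, `n ≤ r + 1`, `Q r < n + D`, `p` prime to `n + D`, and
`R` odd and prime to `p`. For a vector `v` of `n + D + r + 2` integers let `ρ_1, …, ρ_n` be the first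
coordinates, `u` monic of degree `D` and `b` of degree at most `r` with the next coordinates as
coefficients, and `c` the last coordinate. For `d ≥ 1` and `M ≥ 1` consider the surface

  `w ^ Q = (x ^ M - ρ_1) ⋯ (x ^ M - ρ_n) u(x ^ M) + (b(x ^ M) + c t ^ (p ^ d)) ^ Q`

and the Jacobian `J` of its generic fibre over the line with coordinate `t`. Let `k` be a number field which
contains the roots of unity of order `Q` and a `p`-th root of `-1`.

**Theorem.** For all `β, ε > 0` and all large `q` the following holds for all but `ε |t|` of the members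
`v = c₀ + y_i`, `i ∈ t`, of every family of vectors of residues modulo `q` (represented by the least residues,
shifted by any integral vector `c₀`) whose Fourier coefficients at the nonzero frequencies are at most `q ^ (-β)`
times the number of the members: for ALL `d ≥ 1` and ALL `M` which divide a power of `R`

1. every class of `V_p` of the Selmer group of `J` over `k^sep(t)` which is fixed by the Galois group
   comes from `J(K)`, `K = k(t)` (the Tate conjecture for divisors at `p` for the surface);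
2. the `p`-primary part of the Tate-Shafarevich group of `J` over `K` is zero;
3. `n (Q - 1)` elements of `J(K)` are a basis of `J(K)` at `p`: the rank is exactly `n (Q - 1)`.

(`ManyWorks`.) The families can be very sparse: only `m ^ ε` of the `m ^ (n + D + r + 2)` vectors of the box
occur in the following examples (of vectors with `k` coordinates).

* The values `(u_1(n), …, u_k(n))`, `n < N`, of linear recurrences modulo a prime `m` with linearly
  independent vectors of coefficients, as soon as `N ≥ m ^ ε` and the roots and their quotients have orders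
  `≥ m ^ ε`.
* The vectors `(x_1 b_1 ^ n, …, x_k b_k ^ n)`, `n < N`, `N ≥ m ^ ε`, for fixed different integers `b_j ≥ 2` and
  all `x_j ≠ 0`, modulo all but `C X ^ ε` of the primes `m ≤ X`.

In the starting results on these surfaces the vectors run through boxes, sequences of integer parts of
generalised polynomials, and random orbits.

From Mathlib: `ZMod.stdAddChar`: the additive character `j ↦ exp (2 π i j / q)` of the integers modulo `q`;
`ZMod.val`: the least residue.

Proof: as in the starting file `ThinSequences` (helper650): finitely many tests, each passed by a positive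
proportion of the residues modulo each large prime which splits suitably, and Turan's sieve; families with small
Fourier coefficients are well distributed modulo all integers up to a power of `q`
(`Pool.Agent.Run7.h823.WF`), and the Fourier coefficients of short recurrences are estimated by the method of
Bourgain, Glibichuk and Konyagin (`Pool.Agent.Run7.h823.BK`).
-/

set_option autoImplicit false

namespace Pool.Agent.Results.MP_97f789_ag.ResidueVectors

open Finset
open Pool.Agent.Y160.SL (ManyWorks)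

/-- The Fourier coefficients of the vectors of residues `y i`, `i ∈ s`, modulo `q` at the nonzero frequencies are at most
`η` times the number of the vectors: `|∑ i ∈ s, e(h·y_i / q)| ≤ η |s|` for all vectors `h ≠ 0` modulo `q`. -/
def Flat {τ ι : Type} [Fintype ι] (q : ℕ) [NeZero q] (η : ℝ) (s : Finset τ) (y : τ → ι → ZMod q) : Prop :=
  ∀ h : ι → ZMod q, h ≠ 0 → ‖∑ i ∈ s, (ZMod.stdAddChar (∑ j, h j * y i j) : ℂ)‖ ≤ η * s.card

/-- The integral vector `c₀ + y_i`, with the least residues `0 ≤ y_i < q`. -/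
def vec {τ ι : Type} {q : ℕ} (y : τ → ι → ZMod q) (c₀ : ι → ℤ) (i : τ) (j : ι) : ℤ := c₀ j + ((y i j).val : ℕ)

/-- **Theorem.** (1) The conclusions 1, 2, 3 for all `d` and `M` are `ManyWorks`. (2) Examples: short linear
recurrences. (3) Examples: the first powers of fixed integers, modulo all but `C X ^ ε` of the primes `m ≤ X`. -/
theorem result :
    (∀ (p s n D r R : ℕ) (_ : p.Prime) (_ : 0 < n) (_ : 2 ≤ D) (_ : n ≤ r + 1)
      (_ : p ^ (s + 1) * r < n + D) (_ : p.Coprime (n + D)) (_ : Odd R) (_ : p.Coprime R)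
      (k : Type) [Field k] [NumberField k] (ζ η : k) (_ : IsPrimitiveRoot ζ (p ^ (s + 1)))
      (_ : η ^ p = -1) (β ε : ℝ), 0 < β → 0 < ε → ∃ q₀ : ℕ, ∀ (q : ℕ) [NeZero q], q₀ ≤ q →
      ∀ (τ : Type) (t : Finset τ) (y : τ → Fin (n + (D + (r + 2))) → ZMod q),
      Flat q ((q : ℝ) ^ (-β)) t y → ∀ c₀ : Fin (n + (D + (r + 2))) → ℤ,
      ({i : τ | i ∈ t ∧ ¬ ManyWorks p (p ^ (s + 1)) n D r R k (vec y c₀ i)}.ncard : ℝ) ≤ ε * t.card) ∧
    (∀ (k : ℕ) (ε : ℝ), 0 < ε → ∃ β : ℝ, 0 < β ∧ ∃ m₀ : ℕ, ∀ (m : ℕ) [Fact m.Prime], m₀ ≤ m →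
      ∀ (ι : Type) [Fintype ι] (c : ι → Fin k → ZMod m) (g : Fin k → (ZMod m)ˣ) (N : ℕ), LinearIndependent (ZMod m) c →
      (∀ i, (m : ℝ) ^ ε ≤ orderOf (g i)) → (∀ i j, i ≠ j → (m : ℝ) ^ ε ≤ orderOf (g i / g j)) → (m : ℝ) ^ ε ≤ N →
      Flat m ((m : ℝ) ^ (-β)) (range N) (fun n j => ∑ i, c j i * (g i : ZMod m) ^ n)) ∧
    (∀ (ι : Type) [Fintype ι] (ε : ℝ), 0 < ε → ∃ β : ℝ, 0 < β ∧ ∀ b : ι → ℕ, (∀ j, 2 ≤ b j) → Function.Injective b →
      ∃ C : ℝ, ∀ X : ℕ, 1 ≤ X → ∀ Q : Finset ℕ,
      (∀ m ∈ Q, m ≤ X ∧ ∃ _ : Fact m.Prime, ¬ ∀ N : ℕ, (m : ℝ) ^ ε ≤ N → ∀ x : ι → ZMod m, (∀ j, x j ≠ 0) →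
        Flat m ((m : ℝ) ^ (-β)) (range N) (fun n j => x j * (b j : ZMod m) ^ n)) →
      (Q.card : ℝ) ≤ C * (X : ℝ) ^ ε) := by
  refine ⟨?_, fun k ε hε => Pool.Agent.Run7.h823.WF.flat_rec' k hε,
    fun ι _ ε hε => Pool.Agent.Run7.h823.WF.flat_pow' ι hε⟩
  intro p s n D r R hp hn hD hnr hqr hcop hR hpR k _ _ ζ η hζ hη β ε hβ hε
  have hcop' : (p ^ (s + 1)).Coprime (R * (n + D)) := (hpR.mul_right hcop).pow_left _
  have hq0 : 0 < p ^ (s + 1) := Nat.pow_pos hp.pos
  obtain ⟨q₀, h⟩ := Pool.Agent.Run7.h823.WF.transferD (ι := Fin (n + (D + (r + 2)))) hβ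
    (fun _ v => v ∉ Pool.Agent.Y160.T6.Exc p (p ^ (s + 1)) n D r R k) (fun _ _ => True)
    (fun _ _ _ => trivial)
    (fun S x κ hκ hw _ ε hε => by
      obtain ⟨N₀, h1⟩ := Pool.Agent.N650.TH.exc_thin hκ hw hp hq0 hn hD hnr hqr hR hcop' k ε hε
      refine ⟨N₀, fun N hN => le_trans (Pool.Agent.Run7.h823.WF.ncard_mono ?_) (h1 N hN)⟩
      intro m _ hm
      exact not_not.1 hm) ε hε
  refine ⟨q₀, fun q _ hq τ t y hf c₀ => le_trans ?_ (h τ q hq t y c₀ hf fun _ _ => trivial)⟩
  apply Pool.Agent.Run7.h823.WF.ncard_mono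
  intro i _ ht hgood
  apply ht
  obtain ⟨t1, t2, t3, t4, t5, t6⟩ := Pool.Agent.Y160.T6.exc_some hgood
  exact Pool.Agent.Y160.T6.works_of Pool.Agent.Y833.EN.st_cond hp rfl hn hD hqr hcop hR hpR hζ hη
    t1 t2 t3 t4 t5 t6

end Pool.Agent.Results.MP_97f789_ag.ResidueVectors
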