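import Mathlib
import Pool.Agent.N140.RO.Two
import Pool.Agent.N140.RO.Cnt
import Pool.Agent.Run7.h316.EQ.Sv
import Pool.Agent.Run7.h316.EQ.Ext

/-!
# The Tate conjecture at 2 in the family of all elliptic surfaces with a section of order two: prime
# coefficients and all dominated families, over all number fields at once

Let `K` be a number field, `ω` a basis of its ring of integers. Every elliptic curve over `K(t)` with a
rational point of order two has an equation

`E : y² = x (x² + a x + b)`

with polynomials `a`, `b`; we consider `a` of degree at most `m` and `b` of degree at most `N`, with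
coefficients in the ring of integers, where `2 m ≤ N` and `N ≥ 5`. The coordinates of the coefficients
form a vector `c` of integers. The pair `(a, b)` is good over a finite extension field `k'` of `K`
(`GoodOver`, the notion of the file `RandomOrbits`) if `b` and `a² - 4 b` are irreducible of degree `N` over
`k'`, and for EVERY extension field `L` of `k'` such that for each element of `L` which is algebraic over `k'`
the Galois group of its minimal polynomial over `k'` is solvable (for example `L = k'`, or more generally if the
elements of `L` which are algebraic over `k'` are in a normal extension `M` of `k'` over which neither `b` nor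
`a² - 4 b` splits into linear factors), and for EVERY constant `e ≠ 0` of `L`, the twist
`E_e : y² = x (x² + e a x + e² b)` over `L(t)` has the following properties:

(i) the Tate conjecture for divisors at the prime 2 holds (`TateAtTwo`): the classes in
`V₂ Sel(E_e / L'(t))`, `L'` a separable closure of `L`, which are fixed by the Galois group come from
`E_e(L(t))`;

(ii) every point of `E_e(L(t))` is the sum of a point of order at most two and the double of a point, and if
`E_e(L(t))` is finitely generated, then it is finite;

(iii) the classes of 2-power order in `H¹(L(t), E_e)` which are trivial over the completions of `L(t)` at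
all finite places are zero.

Let `c w`, `w ∈ Ω`, be a family of vectors and `S M ⊂ Ω` finite sets; `Usually`: for ALL finite extensions `k'`
of `K` in an algebraic closure the proportion of the `w ∈ S M` for which the pair with the coordinates `c w` is
not good over `k'` tends to zero, `M → ∞`.

**Theorem.** The property `Usually` is robust (`Pool.Agent.Run7.h316.EQ.Robust`):

(1) All dominated families have it: there are `C`, `A`, `M` such that for all squarefree `q'` prime to `M` at
most the proportion `C (q' / φ(q')) ^ A q' ^ (-ρ) + o(1)` of the vectors is in a given class modulo `q'`, where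
`ρ` is the number of the coordinates. (All equidistributed sequences, along arbitrary sets of times, are
dominated, and all their subfamilies of positive lower density.)
(2) - (4) Metric sequences: `(⌊f_{i,l}(x_i)⌋)_i` for Koksma sequences `f_{i,0}, f_{i,1}, …`,
`(⌊a_{i,l} x_i⌋)_i` for arbitrary sequences of different integers (or of real numbers with a gap) and
`(⌊ξ_i x_i ^ (k_l)⌋)_i`, for almost all `x`.
(5) Random orbits of groups of integral matrices of determinant one which generate `SL(ℤ/q')` for all `q'`
prime to some number (all Zariski dense groups, possibly of infinite index).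
(6) Generalised polynomials `(⌊∑_t a_{i,t} l ^ t⌋)_i` at the integers and at the primes `l` of `(M, 2M]`.
(7) PRIME COEFFICIENTS: the vectors of prime numbers `≤ M`.

Proof. Local criterion of helper601 (`MP_17a657_ag.OrderTwoSections`): Frobenius elements at maximal ideals
with three factorization types show that the Galois groups of `b` and `a² - 4 b` over `k'` are the full
symmetric groups. Each of the types has a positive proportion modulo the large primes of degree one of `k'`
(compare helper140, `RandomOrbits`), so the set of the vectors which are not good over `k'` is very null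
(`Pool.Agent.Run7.h316.EQ.VeryNull`): for all `D`, `η > 1` and `ε > 0` there is a squarefree number `q'` prime
to `D` with `q' ≤ η φ(q')` such that at most the proportion `ε` of the classes modulo `q'` contain elements of
it. Metric sequences: `Pool.Agent.N24.KM` (helpers 24, 344, 617, 199, 764, 432, 286); random orbits:
`Pool.Agent.N24.RW` (helpers 24, 123, 195, 300, 543, 765; this case is in the file `RandomOrbits`); generalised
polynomials: `Pool.Agent.N666.TM` (helper666); `Pool.Agent.N918.EQ` (helper918); primes: the prime number
theorem for arithmetic progressions (helper923).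
-/

set_option autoImplicit false

namespace Pool.Agent.Results.MP_97f789_ag.RobustSections

open Polynomial NumberField Pool.Agent.N140.RO Pool.Agent.N140.RO.Two Pool.Agent.Run7.h316.EQ

/-- The coordinates of the coefficients of the pair `(a, b)`. -/
abbrev Idx (m N : ℕ) (J : Type) : Type := (Fin (m + 1) ⊕ Fin (N + 1)) × J

section

variable {K : Type} [Field K] {J : Type} [Fintype J] (ω : Module.Basis J ℤ (𝓞 K)) {m N : ℕ}

/-- The polynomial `a` over the ring of integers with the coordinates `c`. -/
noncomputable def polA (c : Idx m N J → ℤ) : K[X] :=
  ∑ j : Fin (m + 1), C (algebraMap (𝓞 K) K (vec ω c (Sum.inl j))) * X ^ (j : ℕ)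

/-- The polynomial `b` over the ring of integers with the coordinates `c`. -/
noncomputable def polB (c : Idx m N J → ℤ) : K[X] :=
  ∑ j : Fin (N + 1), C (algebraMap (𝓞 K) K (vec ω c (Sum.inr j))) * X ^ (j : ℕ)

/-- The pair with the coordinates `c` is good over the extension `E` of `K`. -/
def GoodOver (E : Type) [Field E] [Algebra K E] (c : Idx m N J → ℤ) : Prop :=
  Good E N ((polA ω c).map (algebraMap K E)) ((polB ω c).map (algebraMap K E))

end

theorem very {K : Type} [Field K] {J : Type} [Fintype J] (ω : Module.Basis J ℤ (𝓞 K)) {m N : ℕ}
    (hmN : 2 * m ≤ N) (hN : 5 ≤ N) (E : Type) [Field E] [NumberField E] [Algebra K E] :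
    VeryNull {c : Idx m N J → ℤ | ¬ GoodOver ω E c} := by
  classical
  have hD : (0 : ℝ) < 1 / ((Pool.Agent.X243.Sol.DD N : ℕ) : ℝ) := by
    have h1 : 0 < Pool.Agent.X243.Sol.DD N := by
      have := Pool.Agent.X243.Sol.D3_pos N
      unfold Pool.Agent.X243.Sol.DD
      have h3 : 0 < 4 * N := by omega
      positivity
    have h2 : (0 : ℝ) < ((Pool.Agent.X243.Sol.DD N : ℕ) : ℝ) := by exact_mod_cast h1
    positivity
  refine Sv.veryNull_of (σ := Bool × Fin 3) (fun s => {c : Idx m N J → ℤ | ∀ P ∈ Big E (2 * N + 2),
      (fun i => Ideal.Quotient.mk P (algebraMap (𝓞 K) (𝓞 E) (vec ω c i))) ∉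
        Pool.Agent.X243.Sol.Gev3 m N s (𝓞 E ⧸ P)}) _ (fun s => ?_) ?_
  · exact Sv.very_sieve ω (2 * N + 2) (fun P => Pool.Agent.X243.Sol.Gev3 m N s (𝓞 E ⧸ P)) hD
      (fun P hP => Pool.Agent.X243.Gen.Gev3_G (by omega : 3 ≤ N) s hP)
  · intro c hc
    by_contra hno
    apply hc
    simp only [Set.mem_ofPred_eq, not_exists, not_forall, not_not] at hno
    set z : Pairs m N (𝓞 E) := (fun j => algebraMap (𝓞 K) (𝓞 E) (vec ω c (Sum.inl j)),
      fun j => algebraMap (𝓞 K) (𝓞 E) (vec ω c (Sum.inr j))) with hz
    have hzv : toV z = fun i => algebraMap (𝓞 K) (𝓞 E) (vec ω c i) := by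
      funext i
      rcases i with j | j <;> rfl
    have h2 : (2 : 𝓞 E) ≠ 0 := two_ne_zero
    have key := good_of (R := 𝓞 E) (k := E) h2 (B := 2 * N + 2) hmN hN (z := z) (fun s => by
      obtain ⟨P, hP, h⟩ := hno s
      refine ⟨P, hP, ?_⟩
      rw [hzv]
      exact h)
    have e1 : poly E z.1 = (polA ω c).map (algebraMap K E) := by
      rw [poly, polA, Polynomial.map_sum]
      refine Finset.sum_congr rfl fun j _ => ?_
      rw [Polynomial.map_mul, Polynomial.map_pow, map_C, map_X, hz,
        ← IsScalarTower.algebraMap_apply, ← IsScalarTower.algebraMap_apply]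
    have e2 : poly E z.2 = (polB ω c).map (algebraMap K E) := by
      rw [poly, polB, Polynomial.map_sum]
      refine Finset.sum_congr rfl fun j _ => ?_
      rw [Polynomial.map_mul, Polynomial.map_pow, map_C, map_X, hz,
        ← IsScalarTower.algebraMap_apply, ← IsScalarTower.algebraMap_apply]
    rw [e1, e2] at key
    exact key

/-- For ALL finite extensions `E` of `K` the proportion of the `w` in `S M` for which the pair with the
coordinates `c w` is not good over `E` tends to zero, `M → ∞`. -/
def Usually {K : Type} [Field K] {J : Type} [Fintype J] (ω : Module.Basis J ℤ (𝓞 K)) (m N : ℕ)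
    (Ω : Type) (S : ℕ → Finset Ω) (c : Ω → Idx m N J → ℤ) : Prop :=
  ∀ E : IntermediateField K (AlgebraicClosure K), FiniteDimensional K E →
    ∀ ε : ℝ, 0 < ε → ∃ M₀ : ℕ, ∀ M : ℕ, M₀ ≤ M →
      (({w : Ω | w ∈ S M ∧ ¬ GoodOver ω E (c w)}.ncard : ℕ) : ℝ) ≤ ε * (S M).card

theorem result {K : Type} [Field K] [NumberField K] {J : Type} [Fintype J] [DecidableEq J]
    (ω : Module.Basis J ℤ (𝓞 K)) {m N : ℕ} (hmN : 2 * m ≤ N) (hN : 5 ≤ N) :
    Robust (Usually ω m N) := by
  have hne : Nonempty (Idx m N J) := by
    have : Nonempty J := ω.index_nonempty
    exact ⟨(Sum.inl 0, Classical.arbitrary J)⟩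
  refine robust_ext (K := K) (fun E [Field E] => Unit) (fun E [Field E] hE => inferInstance)
    (fun E [Field E] [Algebra K E] t c => GoodOver ω E c)
    (fun E [Field E] [NumberField E] [Algebra K E] t => (very ω hmN hN E).strong) _
    fun Ω S c hR => ?_
  intro E hE ε hε
  exact hR E hE () ε hε

end Pool.Agent.Results.MP_97f789_ag.RobustSections
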